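import Pool.Agent.helper95.T5.SpecN
import Pool.Agent.helper97.FT.P5a

set_option autoImplicit false

namespace Pool.Agent.T5

open Finset NumberField Pool.Agent.helper3.FT Pool.Agent.helper47.RA

private theorem RDC_param (A A' B X n k : ℤ) (hc : IsCoprime n k) (hn : n ≠ 0) (hk : k ≠ 0)
    (h1 : F1 A A' B n k = 0) (h2 : F2 A' B X n k = 0) :
    ∃ a x : ℤ, 5 * A = k ^ 3 * a ∧ 5 * X = n ^ 3 * x ∧
      5 * A' = k * (x * k ^ 2 + 2 * a * n ^ 2) ∧ 5 * B = n * (2 * x * k ^ 2 - a * n ^ 2) := by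
  unfold F1 at h1
  unfold F2 at h2
  have hck3 : IsCoprime (k ^ 3) (n ^ 3) := IsCoprime.pow hc.symm
  have hkA' : k ∣ A' := by
    have h3 : k ∣ n ^ 3 * A' := ⟨-(2 * B * n ^ 2 - 5 * X * k ^ 2), by linarith⟩
    exact (IsCoprime.pow_right hc.symm).dvd_of_dvd_mul_left h3
  have hnB : n ∣ B := by
    have h3 : n ∣ k ^ 3 * B := ⟨-(5 * A * n ^ 2 - 2 * A' * k ^ 2), by linarith⟩
    exact (IsCoprime.pow_right hc).dvd_of_dvd_mul_left h3
  obtain ⟨A1, hA1⟩ := hkA'
  obtain ⟨B1, hB1⟩ := hnB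
  have hk3 : k ^ 3 ∣ 5 * A := by
    have h3 : k ^ 3 ∣ n ^ 3 * (5 * A) := ⟨2 * A1 * n - B, by
      rw [hA1] at h1; linarith⟩
    exact hck3.dvd_of_dvd_mul_left h3
  have hn3 : n ^ 3 ∣ 5 * X := by
    have h3 : n ^ 3 ∣ k ^ 3 * (5 * X) := ⟨A' + 2 * B1 * k, by
      rw [hB1] at h2; linarith⟩
    exact hck3.symm.dvd_of_dvd_mul_left h3
  obtain ⟨a, ha⟩ := hk3
  obtain ⟨x, hx⟩ := hn3
  have e1 : a * n ^ 3 * k = 2 * A' * n - B * k := by
    have hk2 : k ^ 2 ≠ 0 := pow_ne_zero 2 hk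
    apply mul_left_cancel₀ hk2
    have : 5 * A * n ^ 3 = k ^ 3 * a * n ^ 3 := by rw [ha]
    linarith
  have e2 : x * n * k ^ 3 = A' * n + 2 * B * k := by
    have hn2 : n ^ 2 ≠ 0 := pow_ne_zero 2 hn
    apply mul_left_cancel₀ hn2
    have : 5 * X * k ^ 3 = n ^ 3 * x * k ^ 3 := by rw [hx]
    linarith
  refine ⟨a, x, ha, hx, ?_, ?_⟩
  · apply mul_left_cancel₀ hn
    linarith
  · apply mul_left_cancel₀ hk
    linarith

private noncomputable def RDC_P (L : ℕ) : Finset (ℤ × ℤ) :=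
  (Ioo 0 (L + 1)).biUnion (fun k => ({(k : ℤ), -(k : ℤ)} : Finset ℤ) ×ˢ
    (Icc (1 : ℤ) ((L / k ^ 3 : ℕ) : ℤ) ∪ Icc (-((L / k ^ 3 : ℕ) : ℤ)) (-1)))

private theorem RDC_P_card (L : ℕ) : ((RDC_P L).card : ℝ) ≤ 8 * L := by
  have h1 : (RDC_P L).card ≤ ∑ k ∈ Ioo 0 (L + 1), 2 * (2 * (L / k ^ 3)) := by
    unfold RDC_P
    refine le_trans card_biUnion_le (sum_le_sum fun k _ => ?_)
    rw [card_product]
    refine Nat.mul_le_mul card_le_two ?_
    refine le_trans (card_union_le _ _) ?_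
    rw [Int.card_Icc, Int.card_Icc]
    omega
  have h2 : ((∑ k ∈ Ioo 0 (L + 1), 2 * (2 * (L / k ^ 3)) : ℕ) : ℝ) ≤
      ∑ k ∈ Ioo 0 (L + 1), 4 * (L : ℝ) * ((k : ℝ) ^ 2)⁻¹ := by
    push_cast
    apply sum_le_sum
    intro k hk
    rw [mem_Ioo] at hk
    have hkr : (1 : ℝ) ≤ k := by exact_mod_cast hk.1
    have e1 : (((L / k ^ 3 : ℕ)) : ℝ) ≤ L / (k : ℝ) ^ 3 := by
      have := @Nat.cast_div_le ℝ _ _ _ L (k ^ 3)
      push_cast at this
      exact this
    have e2 : (L : ℝ) / (k : ℝ) ^ 3 ≤ L * ((k : ℝ) ^ 2)⁻¹ := by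
      rw [div_eq_mul_inv]
      apply mul_le_mul_of_nonneg_left _ (by positivity)
      apply inv_anti₀ (by positivity)
      exact pow_le_pow_right₀ hkr (by norm_num)
    linarith
  have h4 : ∑ k ∈ Ioo 0 (L + 1), ((k : ℝ) ^ 2)⁻¹ ≤ 2 := by
    have := @sum_Ioo_inv_sq_le ℝ _ _ _ 0 (L + 1)
    norm_num at this ⊢
    exact this
  have h3 : ∑ k ∈ Ioo 0 (L + 1), 4 * (L : ℝ) * ((k : ℝ) ^ 2)⁻¹ =
      4 * (L : ℝ) * ∑ k ∈ Ioo 0 (L + 1), ((k : ℝ) ^ 2)⁻¹ := by rw [mul_sum]
  rw [h3] at h2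
  have h5 : 4 * (L : ℝ) * ∑ k ∈ Ioo 0 (L + 1), ((k : ℝ) ^ 2)⁻¹ ≤ 4 * (L : ℝ) * 2 :=
    mul_le_mul_of_nonneg_left h4 (by positivity)
  have h6 : ((RDC_P L).card : ℝ) ≤ ((∑ k ∈ Ioo 0 (L + 1), 2 * (2 * (L / k ^ 3)) : ℕ) : ℝ) := by
    exact_mod_cast h1
  linarith

private theorem RDC_P_mem (L : ℕ) (k a : ℤ) (hk : k ≠ 0) (ha : a ≠ 0)
    (h : |k ^ 3 * a| ≤ L) : (k, a) ∈ RDC_P L := by
  have hk1 : 1 ≤ k.natAbs := Int.natAbs_pos.2 hk
  have ha1 : 1 ≤ a.natAbs := Int.natAbs_pos.2 ha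
  have h1 : k.natAbs ^ 3 * a.natAbs ≤ L := by
    have e : ((k.natAbs ^ 3 * a.natAbs : ℕ) : ℤ) = |k ^ 3 * a| := by
      push_cast
      rw [abs_mul, abs_pow]
    rw [← e] at h
    exact_mod_cast h
  have h2 : a.natAbs ≤ L / k.natAbs ^ 3 := by
    rw [Nat.le_div_iff_mul_le (by positivity)]
    rw [mul_comm]
    exact h1
  have h3 : k.natAbs ≤ L := by
    have : k.natAbs ≤ k.natAbs ^ 3 := Nat.le_self_pow (by norm_num) _
    nlinarith
  unfold RDC_P
  rw [mem_biUnion]
  refine ⟨k.natAbs, ?_, ?_⟩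
  · rw [mem_Ioo]; omega
  · rw [mem_product, mem_insert, mem_singleton, mem_union, mem_Icc, mem_Icc]
    refine ⟨?_, ?_⟩
    · show k = _ ∨ k = _
      omega
    · show (1 ≤ a ∧ a ≤ _) ∨ (_ ≤ a ∧ a ≤ -1)
      generalize L / k.natAbs ^ 3 = M at h2
      omega

private noncomputable def RDC_vec (p : (ℤ × ℤ) × (ℤ × ℤ)) : ℤ × ℤ × ℤ × ℤ :=
  (p.1.1 ^ 3 * p.1.2 / 5, p.1.1 * (p.2.2 * p.1.1 ^ 2 + 2 * p.1.2 * p.2.1 ^ 2) / 5,
    p.2.1 * (2 * p.2.2 * p.1.1 ^ 2 - p.1.2 * p.2.1 ^ 2) / 5, p.2.1 ^ 3 * p.2.2 / 5)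

private noncomputable abbrev RDC_J (a : Fin 4 → ℕ) (i j : Fin 4) : Finset (ℤ × ℤ) :=
  Icc (-(a i : ℤ)) (a i) ×ˢ Icc (-(a j : ℤ)) (a j)

private theorem RDC_J_card (a : Fin 4 → ℕ) (i j : Fin 4) :
    ((RDC_J a i j).card : ℝ) ≤ 4 * (((a i : ℝ) + 1) * (a j + 1)) := by
  have h : ∀ L : ℕ, (Icc (-(L : ℤ)) L).card = 2 * L + 1 := fun L => by
    rw [Int.card_Icc]; omega
  unfold RDC_J
  rw [card_product, h, h]
  push_cast
  have h1 : (0 : ℝ) ≤ a i := by positivity
  have h2 : (0 : ℝ) ≤ a j := by positivity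
  nlinarith

theorem RDC : RDC_stmt := by
  classical
  refine ⟨1600, by norm_num, fun a => ?_⟩
  -- the three families determined by `(A', B)`
  set T := (box4 a).filter (fun v => v.1 ≠ 0 ∧ v.2.2.1 ≠ 0 ∧ v.2.1 * v.2.2.1 = 25 * v.1 * v.2.2.2 ∧
    5 * v.1 * v.2.2.1 ^ 2 = v.2.1 ^ 3) with hT
  set U := (box4 a).filter (fun v => v.2.2.1 ≠ 0 ∧ v.2.2.2 = 0 ∧
    8 * v.1 * v.2.2.1 ^ 2 = v.2.1 ^ 3) with hU
  set V := (box4 a).filter (fun v => v.2.1 ≠ 0 ∧ v.1 = 0 ∧
    8 * v.2.2.2 * v.2.1 ^ 2 = v.2.2.1 ^ 3) with hV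
  have hmaps : ∀ v ∈ box4 a, ((v.2.1, v.2.2.1) : ℤ × ℤ) ∈ RDC_J a 1 2 := by
    rintro ⟨A, A', B, X⟩ hv
    unfold box4 at hv
    simp only [mem_product] at hv
    simp only [RDC_J, mem_product]
    exact ⟨hv.2.1, hv.2.2.1⟩
  have hTJ : T.card ≤ (RDC_J a 1 2).card := by
    apply card_le_card_of_injOn (fun v => (v.2.1, v.2.2.1))
    · intro v hv
      rw [hT, coe_filter, Set.mem_ofPred_eq] at hv
      exact mem_coe.2 (hmaps v hv.1)
    · rintro ⟨A, A', B, X⟩ hv ⟨A2, A2', B2, X2⟩ hv2 he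
      rw [hT, coe_filter, Set.mem_ofPred_eq] at hv hv2
      simp only [Prod.mk.injEq] at he
      obtain ⟨e1, e2⟩ := he
      obtain ⟨-, hA, hB, h3, h4⟩ := hv
      obtain ⟨-, hA2, -, h5, h6⟩ := hv2
      simp only at hA hB h3 h4 hA2 h5 h6
      subst e1
      subst e2
      have hAA : A = A2 := by
        have hB2 : B ^ 2 ≠ 0 := pow_ne_zero 2 hB
        apply mul_right_cancel₀ hB2
        linarith
      subst hAA
      have hXX : X = X2 := by
        apply mul_left_cancel₀ hA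
        linarith
      rw [hXX]
  have hUJ : U.card ≤ (RDC_J a 1 2).card := by
    apply card_le_card_of_injOn (fun v => (v.2.1, v.2.2.1))
    · intro v hv
      rw [hU, coe_filter, Set.mem_ofPred_eq] at hv
      exact mem_coe.2 (hmaps v hv.1)
    · rintro ⟨A, A', B, X⟩ hv ⟨A2, A2', B2, X2⟩ hv2 he
      rw [hU, coe_filter, Set.mem_ofPred_eq] at hv hv2
      simp only [Prod.mk.injEq] at he
      obtain ⟨e1, e2⟩ := he
      obtain ⟨-, hB, hX, h3⟩ := hv
      obtain ⟨-, hB', hX2, h4⟩ := hv2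
      simp only at hB hX h3 hB' hX2 h4
      subst e1
      subst e2
      have hAA : A = A2 := by
        have hB2 : B ^ 2 ≠ 0 := pow_ne_zero 2 hB
        apply mul_right_cancel₀ hB2
        linarith
      rw [hAA, hX, hX2]
  have hVJ : V.card ≤ (RDC_J a 1 2).card := by
    apply card_le_card_of_injOn (fun v => (v.2.1, v.2.2.1))
    · intro v hv
      rw [hV, coe_filter, Set.mem_ofPred_eq] at hv
      exact mem_coe.2 (hmaps v hv.1)
    · rintro ⟨A, A', B, X⟩ hv ⟨A2, A2', B2, X2⟩ hv2 he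
      rw [hV, coe_filter, Set.mem_ofPred_eq] at hv hv2
      simp only [Prod.mk.injEq] at he
      obtain ⟨e1, e2⟩ := he
      obtain ⟨-, hB, hX, h3⟩ := hv
      obtain ⟨-, hB', hX2, h4⟩ := hv2
      simp only at hB hX h3 hB' hX2 h4
      subst e1
      subst e2
      have hXX : X = X2 := by
        have hB2 : A' ^ 2 ≠ 0 := pow_ne_zero 2 hB
        apply mul_right_cancel₀ hB2
        linarith
      rw [hXX, hX, hX2]
  set W := ((RDC_P (5 * a 0)) ×ˢ (RDC_P (5 * a 3))).image RDC_vec with hW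
  have hsub : (box4 a).filter (fun v => Rf v.1 v.2.1 v.2.2.1 v.2.2.2 = 0 ∧
      ¬ (v.2.2.1 = 0 ∧ v.2.2.2 = 0)) ⊆
      ((RDC_J a 1 3).image (fun p : ℤ × ℤ => ((0, p.1, 0, p.2) : ℤ × ℤ × ℤ × ℤ))) ∪
      (((RDC_J a 2 3).image (fun p : ℤ × ℤ => ((0, 0, p.1, p.2) : ℤ × ℤ × ℤ × ℤ))) ∪
      (T ∪ (U ∪ (V ∪ W)))) := by
    rintro ⟨A, A', B, X⟩ hv
    rw [mem_filter] at hv
    obtain ⟨hb, hRf, hBX⟩ := hv
    simp only at hRf hBX
    have hb' := hb
    unfold box4 at hb'
    simp only [mem_product] at hb'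
    simp only [mem_union]
    rcases Rf_zero_cases A A' B X hRf with ⟨n, k, hc, h1, h2⟩ | ⟨h3, h4⟩
    · have hn : n ≠ 0 := by
        intro hn
        rw [hn] at hc h1 h2
        have hk : k ≠ 0 := by
          rintro rfl
          exact not_isCoprime_zero_zero hc
        unfold F1 at h1
        unfold F2 at h2
        have hB : B = 0 := by
          have : B * k ^ 3 = 0 := by linarith
          rcases mul_eq_zero.1 this with h0 | h0
          · exact h0
          · exact absurd (pow_eq_zero_iff (by norm_num) |>.1 h0) hk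
        have hX : X = 0 := by
          have : X * k ^ 3 = 0 := by linarith
          rcases mul_eq_zero.1 this with h0 | h0
          · exact h0
          · exact absurd (pow_eq_zero_iff (by norm_num) |>.1 h0) hk
        exact hBX ⟨hB, hX⟩
      by_cases hk : k = 0
      · right; left
        rw [hk] at h1 h2
        unfold F1 at h1
        unfold F2 at h2
        have hA : A = 0 := by
          have : A * n ^ 3 = 0 := by linarith
          rcases mul_eq_zero.1 this with h0 | h0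
          · exact h0
          · exact absurd (pow_eq_zero_iff (by norm_num) |>.1 h0) hn
        have hA' : A' = 0 := by
          have : A' * n ^ 3 = 0 := by linarith
          rcases mul_eq_zero.1 this with h0 | h0
          · exact h0
          · exact absurd (pow_eq_zero_iff (by norm_num) |>.1 h0) hn
        rw [mem_image]
        refine ⟨(B, X), ?_, by rw [hA, hA']⟩
        rw [RDC_J, mem_product]
        exact ⟨hb'.2.2.1, hb'.2.2.2⟩
      · right; right; right
        obtain ⟨u, x, ea, ex, eA', eB⟩ := RDC_param A A' B X n k hc hn hk h1 h2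
        by_cases hx : x = 0
        · left
          rw [hx] at ex eA' eB
          have hX : X = 0 := by linarith
          have hB : B ≠ 0 := fun h => hBX ⟨h, hX⟩
          rw [hU, mem_filter]
          refine ⟨hb, hB, hX, ?_⟩
          show 8 * A * B ^ 2 = A' ^ 3
          have h125 : (125 : ℤ) ≠ 0 := by norm_num
          apply mul_left_cancel₀ h125
          calc 125 * (8 * A * B ^ 2) = 8 * (5 * A) * (5 * B) ^ 2 := by ring
            _ = 8 * (k ^ 3 * u) * (n * (2 * 0 * k ^ 2 - u * n ^ 2)) ^ 2 := by rw [ea, eB]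
            _ = (k * (0 * k ^ 2 + 2 * u * n ^ 2)) ^ 3 := by ring
            _ = (5 * A') ^ 3 := by rw [eA']
            _ = 125 * A' ^ 3 := by ring
        · right
          by_cases hu : u = 0
          · left
            rw [hu] at ea eA' eB
            have hA : A = 0 := by linarith
            have hA' : A' ≠ 0 := by
              intro h
              rw [h] at eA'
              have h6 : k ^ 3 * x = 0 := by linarith
              rcases mul_eq_zero.1 h6 with h0 | h0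
              · exact hk (pow_eq_zero_iff (by norm_num) |>.1 h0)
              · exact hx h0
            rw [hV, mem_filter]
            refine ⟨hb, hA', hA, ?_⟩
            show 8 * X * A' ^ 2 = B ^ 3
            have h125 : (125 : ℤ) ≠ 0 := by norm_num
            apply mul_left_cancel₀ h125
            calc 125 * (8 * X * A' ^ 2) = 8 * (5 * X) * (5 * A') ^ 2 := by ring
              _ = 8 * (n ^ 3 * x) * (k * (x * k ^ 2 + 2 * 0 * n ^ 2)) ^ 2 := by rw [ex, eA']
              _ = (n * (2 * x * k ^ 2 - 0 * n ^ 2)) ^ 3 := by ring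
              _ = (5 * B) ^ 3 := by rw [eB]
              _ = 125 * B ^ 3 := by ring
          · right
            rw [hW, mem_image]
            refine ⟨((k, u), (n, x)), ?_, ?_⟩
            · rw [mem_product]
              refine ⟨RDC_P_mem _ _ _ hk hu ?_, RDC_P_mem _ _ _ hn hx ?_⟩
              · rw [← ea]
                have := mem_Icc.1 hb'.1
                push_cast
                rw [abs_le]
                constructor <;> linarith
              · rw [← ex]
                have := mem_Icc.1 hb'.2.2.2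
                push_cast
                rw [abs_le]
                constructor <;> linarith
            · unfold RDC_vec
              simp only [Prod.mk.injEq]
              refine ⟨?_, ?_, ?_, ?_⟩
              · rw [← ea]; omega
              · rw [← eA']; omega
              · rw [← eB]; omega
              · rw [← ex]; omega
    · by_cases hB : B = 0
      · rw [hB, mul_zero] at h3
        have h5 : A * X = 0 := by linarith
        rcases mul_eq_zero.1 h5 with h0 | h0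
        · left
          rw [mem_image]
          refine ⟨(A', X), ?_, by rw [h0, hB]⟩
          rw [RDC_J, mem_product]
          exact ⟨hb'.2.1, hb'.2.2.2⟩
        · exact absurd ⟨hB, h0⟩ hBX
      · right
        have h6 : 5 * A * B ^ 2 = A' ^ 3 := by
          rcases h4 with h4 | h4
          · exact absurd h4 hB
          · exact h4
        by_cases hA : A = 0
        · left
          have hA' : A' = 0 := by
            rw [hA] at h6
            have : A' ^ 3 = 0 := by linarith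
            exact pow_eq_zero_iff (by norm_num) |>.1 this
          rw [mem_image]
          refine ⟨(B, X), ?_, by rw [hA, hA']⟩
          rw [RDC_J, mem_product]
          exact ⟨hb'.2.2.1, hb'.2.2.2⟩
        · right; left
          rw [hT, mem_filter]
          exact ⟨hb, hA, hB, h3, h6⟩
  have hfin : ((box4 a).filter (fun v => Rf v.1 v.2.1 v.2.2.1 v.2.2.2 = 0 ∧
      ¬ (v.2.2.1 = 0 ∧ v.2.2.2 = 0))).card ≤
      (RDC_J a 1 3).card + ((RDC_J a 2 3).card + ((RDC_J a 1 2).card + ((RDC_J a 1 2).card +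
        ((RDC_J a 1 2).card + (RDC_P (5 * a 0)).card * (RDC_P (5 * a 3)).card)))) := by
    refine le_trans (card_le_card hsub) ?_
    refine le_trans (card_union_le _ _) (add_le_add card_image_le ?_)
    refine le_trans (card_union_le _ _) (add_le_add card_image_le ?_)
    refine le_trans (card_union_le _ _) (add_le_add hTJ ?_)
    refine le_trans (card_union_le _ _) (add_le_add hUJ ?_)
    refine le_trans (card_union_le _ _) (add_le_add hVJ ?_)
    refine le_trans card_image_le ?_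
    rw [card_product]
  have hfin' : (((box4 a).filter (fun v => Rf v.1 v.2.1 v.2.2.1 v.2.2.2 = 0 ∧
      ¬ (v.2.2.1 = 0 ∧ v.2.2.2 = 0))).card : ℝ) ≤
      (RDC_J a 1 3).card + ((RDC_J a 2 3).card + ((RDC_J a 1 2).card + ((RDC_J a 1 2).card +
        ((RDC_J a 1 2).card + (RDC_P (5 * a 0)).card * (RDC_P (5 * a 3)).card)))) := by
    exact_mod_cast hfin
  have j13 := RDC_J_card a 1 3
  have j23 := RDC_J_card a 2 3
  have j12 := RDC_J_card a 1 2
  have p0 := RDC_P_card (5 * a 0)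
  have p3 := RDC_P_card (5 * a 3)
  push_cast at p0 p3
  have hp : ((RDC_P (5 * a 0)).card : ℝ) * (RDC_P (5 * a 3)).card ≤
      (8 * (5 * (a 0 : ℝ))) * (8 * (5 * (a 3 : ℝ))) :=
    mul_le_mul p0 p3 (by positivity) (by positivity)
  have q0 : (0 : ℝ) ≤ a 0 := by positivity
  have q12 : (0 : ℝ) ≤ ((a 1 : ℝ) + 1) * (a 2 + 1) := by positivity
  have q13 : (0 : ℝ) ≤ ((a 1 : ℝ) + 1) * (a 3 + 1) := by positivity
  have q23 : (0 : ℝ) ≤ ((a 2 : ℝ) + 1) * (a 3 + 1) := by positivity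
  linarith

end Pool.Agent.T5
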