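import Pool.Agent.helper26.T5.SpecH

set_option autoImplicit false

namespace Pool.Agent.helper26.T5

open Finset NumberField Pool.Agent.helper3.FT Pool.Agent.helper47.RA Pool.Agent.T5
open Pool.Agent.helper28.LT (rad)

/-- a labelling of a set of at most four elements -/
private theorem HLN_lab (p : ℕ) [Fact p.Prime] (S : Finset (ZMod p)) (hS : S.card ≤ 4) :
    ∃ e : ZMod p → Fin 6, (∀ r, (e r : ℕ) < 4) ∧ ∀ r ∈ S, ∀ r' ∈ S, e r = e r' → r = r' := by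
  classical
  refine ⟨fun r => if h : r ∈ S then ⟨(S.equivFin ⟨r, h⟩).val,
    by have := (S.equivFin ⟨r, h⟩).isLt; omega⟩ else 0, fun r => ?_, fun r hr r' hr' he => ?_⟩
  · by_cases h : r ∈ S
    · simp only [dif_pos h]
      have := (S.equivFin ⟨r, h⟩).isLt
      omega
    · simp only [dif_neg h]
      norm_num
  · simp only [dif_pos hr, dif_pos hr', Fin.mk.injEq] at he
    have h1 : S.equivFin ⟨r, hr⟩ = S.equivFin ⟨r', hr'⟩ := Fin.ext he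
    have h2 := S.equivFin.injective h1
    exact congrArg Subtype.val h2

/-- a non zero polynomial of degree four has at most four roots -/
private theorem HLN_roots (p : ℕ) [Fact p.Prime] (a₄ a₃ a₂ a₁ a₀ : ZMod p) (h : a₄ ≠ 0) :
    ∃ S : Finset (ZMod p), S.card ≤ 4 ∧
      ∀ r, a₄ * r ^ 4 + a₃ * r ^ 3 + a₂ * r ^ 2 + a₁ * r + a₀ = 0 → r ∈ S := by
  classical
  set P : Polynomial (ZMod p) := Polynomial.C a₄ * Polynomial.X ^ 4 +
    Polynomial.C a₃ * Polynomial.X ^ 3 + Polynomial.C a₂ * Polynomial.X ^ 2 +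
    Polynomial.C a₁ * Polynomial.X + Polynomial.C a₀ with hP
  have hdeg : P.natDegree ≤ 4 := by
    rw [hP]
    compute_degree
  have hP0 : P ≠ 0 := by
    intro h0
    have h1 : P.coeff 4 = a₄ := by
      rw [hP]
      simp [Polynomial.coeff_X, Polynomial.coeff_C]
    rw [h0] at h1
    simp at h1
    exact h h1.symm
  refine ⟨P.roots.toFinset, ?_, fun r hr => ?_⟩
  · exact (Multiset.toFinset_card_le _).trans ((Polynomial.card_roots' P).trans hdeg)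
  · rw [Multiset.mem_toFinset, Polynomial.mem_roots hP0, Polynomial.IsRoot.def, hP]
    simp only [Polynomial.eval_add, Polynomial.eval_mul, Polynomial.eval_C, Polynomial.eval_pow,
      Polynomial.eval_X]
    exact hr

private theorem HLN_Y5 {K : Type} [Field K] [NumberField K] (Q : QF K) (x y : ℤ) :
    Q.Y (((x : 𝓞 K) + y * Q.ω) ^ 5) = y * (5 * x ^ 4 + 10 * Q.t * x ^ 3 * y +
      10 * (Q.k + Q.t ^ 2) * x ^ 2 * y ^ 2 + 5 * (2 * Q.k * Q.t + Q.t ^ 3) * x * y ^ 3 +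
      (Q.k ^ 2 + 3 * Q.k * Q.t ^ 2 + Q.t ^ 4) * y ^ 4) := by
  have h2 : Q.ω ^ 2 = (Q.k : 𝓞 K) + Q.t * Q.ω := by rw [pow_two, Q.hω]
  have h3 : Q.ω ^ 3 = (Q.k * Q.t : 𝓞 K) + (Q.k + Q.t ^ 2) * Q.ω := by
    linear_combination (Q.ω + (Q.t : 𝓞 K)) * h2
  have h4 : Q.ω ^ 4 = (Q.k * (Q.k + Q.t ^ 2) : 𝓞 K) + (2 * Q.k * Q.t + Q.t ^ 3) * Q.ω := by
    linear_combination Q.ω * h3 + ((Q.k : 𝓞 K) + Q.t ^ 2) * h2
  have h5 : Q.ω ^ 5 = (Q.k * (2 * Q.k * Q.t + Q.t ^ 3) : 𝓞 K) +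
      (Q.k ^ 2 + 3 * Q.k * Q.t ^ 2 + Q.t ^ 4) * Q.ω := by
    linear_combination Q.ω * h4 + ((2 : 𝓞 K) * Q.k * Q.t + Q.t ^ 3) * h2
  apply Q.Y_eq (x := x ^ 5 + 10 * x ^ 3 * y ^ 2 * Q.k + 10 * x ^ 2 * y ^ 3 * (Q.k * Q.t) +
    5 * x * y ^ 4 * (Q.k * (Q.k + Q.t ^ 2)) + y ^ 5 * (Q.k * (2 * Q.k * Q.t + Q.t ^ 3)))
  push_cast
  have e : ((x : 𝓞 K) + y * Q.ω) ^ 5 = x ^ 5 + 5 * x ^ 4 * y * Q.ω + 10 * x ^ 3 * y ^ 2 * Q.ω ^ 2 +
      10 * x ^ 2 * y ^ 3 * Q.ω ^ 3 + 5 * x * y ^ 4 * Q.ω ^ 4 + y ^ 5 * Q.ω ^ 5 := by ring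
  rw [e, h5, h4, h3, h2]
  ring

private theorem HLN_Yc {K : Type} [Field K] [NumberField K] (Q : QF K) (x y x' y' : ℤ) :
    Q.Y (Q.cj ((x : 𝓞 K) + y * Q.ω) * (x' + y' * Q.ω)) = x * y' - x' * y := by
  have h2 : Q.ω * Q.ω = (Q.k : 𝓞 K) + Q.t * Q.ω := Q.hω
  apply Q.Y_eq (x := x * x' + y * Q.t * x' - y * y' * Q.k)
  rw [map_add, map_mul, map_intCast, map_intCast, Q.cj_ω]
  push_cast
  linear_combination (-(y : 𝓞 K) * y') * h2

theorem hln : HLN := by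
  classical
  intro K _ _ Q p hp hp5
  have : Fact p.Prime := ⟨hp⟩
  have h5 : (5 : ZMod p) ≠ 0 := by
    intro h
    have h1 : ((5 : ℕ) : ZMod p) = 0 := by exact_mod_cast h
    rw [ZMod.natCast_eq_zero_iff] at h1
    have := Nat.le_of_dvd (by norm_num) h1
    omega
  obtain ⟨S, hS, hroot⟩ := HLN_roots p 5 ((10 * Q.t : ℤ) : ZMod p)
    ((10 * (Q.k + Q.t ^ 2) : ℤ) : ZMod p) ((5 * (2 * Q.k * Q.t + Q.t ^ 3) : ℤ) : ZMod p)
    ((Q.k ^ 2 + 3 * Q.k * Q.t ^ 2 + Q.t ^ 4 : ℤ) : ZMod p) h5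
  obtain ⟨e, he4, heinj⟩ := HLN_lab p S hS
  choose xx hxx using Q.exists_re
  have hz : ∀ z : 𝓞 K, (p : ℤ) ∣ Q.Y (z ^ 5) → ¬ (p : ℤ) ∣ Q.Y z →
      ((xx z : ZMod p) / (Q.Y z : ZMod p)) ∈ S := by
    intro z hz hy
    apply hroot
    have h1 : (p : ℤ) ∣ Q.Y (((xx z : 𝓞 K) + Q.Y z * Q.ω) ^ 5) := by rw [← hxx z]; exact hz
    rw [HLN_Y5] at h1
    have hpp : Prime (p : ℤ) := Nat.prime_iff_prime_int.1 hp
    have h2 := (hpp.dvd_or_dvd h1).resolve_left hy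
    have h3 := (ZMod.intCast_zmod_eq_zero_iff_dvd _ p).2 h2
    have hy0 : (Q.Y z : ZMod p) ≠ 0 := fun h => hy ((ZMod.intCast_zmod_eq_zero_iff_dvd _ p).1 h)
    push_cast at h3 ⊢
    have hy4 : (Q.Y z : ZMod p) ^ 4 ≠ 0 := pow_ne_zero 4 hy0
    apply mul_left_cancel₀ hy4
    rw [mul_zero, ← h3]
    field_simp
  refine ⟨fun z => if (p : ℤ) ∣ Q.Y z then 4 else e ((xx z : ZMod p) / (Q.Y z : ZMod p)),
    fun z z' h h' hl => ?_⟩
  have hc : Q.Y (Q.cj z * z') = xx z * Q.Y z' - xx z' * Q.Y z := by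
    conv_lhs => rw [hxx z, hxx z']
    exact HLN_Yc Q _ _ _ _
  rw [hc]
  simp only at hl
  by_cases hy : (p : ℤ) ∣ Q.Y z
  · have hy' : (p : ℤ) ∣ Q.Y z' := by
      by_contra hy'
      rw [if_pos hy, if_neg hy'] at hl
      have h1 := he4 ((xx z' : ZMod p) / (Q.Y z' : ZMod p))
      rw [← hl] at h1
      exact absurd h1 (by decide)
    exact dvd_sub (dvd_mul_of_dvd_right hy' _) (dvd_mul_of_dvd_right hy _)
  · have hy' : ¬ (p : ℤ) ∣ Q.Y z' := by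
      intro hy'
      rw [if_neg hy, if_pos hy'] at hl
      have h1 := he4 ((xx z : ZMod p) / (Q.Y z : ZMod p))
      rw [hl] at h1
      exact absurd h1 (by decide)
    rw [if_neg hy, if_neg hy'] at hl
    have h1 := heinj _ (hz z h hy) _ (hz z' h' hy') hl
    have hy0 : (Q.Y z : ZMod p) ≠ 0 := fun h => hy ((ZMod.intCast_zmod_eq_zero_iff_dvd _ p).1 h)
    have hy0' : (Q.Y z' : ZMod p) ≠ 0 := fun h => hy' ((ZMod.intCast_zmod_eq_zero_iff_dvd _ p).1 h)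
    rw [div_eq_div_iff hy0 hy0'] at h1
    rw [← ZMod.intCast_zmod_eq_zero_iff_dvd]
    push_cast
    rw [h1, sub_self]

end Pool.Agent.helper26.T5
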